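import Pool.Agent.H52.GP1

set_option autoImplicit false

namespace Pool.Agent.Results.MP_9f86c8_nt.Strict

open Filter Topology

/-- `A` is a set of positive integers with no solution of `a c = b ^ 2` in pairwise distinct
elements. -/
def GPFree (A : Set ℕ) : Prop :=
  0 ∉ A ∧ ∀ a ∈ A, ∀ b ∈ A, ∀ c ∈ A, a ≠ b → b ≠ c → a ≠ c → a * c ≠ b ^ 2

/-- The proportion `|A ∩ [1, N]| / N`. -/
noncomputable def ratio (A : Set ℕ) (N : ℕ) : ℝ := ((A ∩ Set.Icc 1 N).ncard : ℝ) / N

/-- Supremum of the asymptotic densities of progression-free sets having a density. -/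
noncomputable def alpha : ℝ := sSup {d | ∃ A, GPFree A ∧ Tendsto (ratio A) atTop (𝓝 d)}

/-- Supremum of the upper densities of progression-free sets. -/
noncomputable def alphaBar : ℝ := sSup {d | ∃ A, GPFree A ∧ d = limsup (ratio A) atTop}

theorem result : alpha < alphaBar := by
  classical
  have hr : ∀ A, ratio A = fun N => (H52.GP.cnt A N : ℝ) / N := by
    intro A
    funext N
    rw [ratio, H52.GP.cnt, ← Set.ncard_coe_finset]
    congr 3
    ext x
    simp only [Set.mem_inter_iff, Set.mem_Icc, Finset.coe_filter, Finset.mem_Icc,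
      Set.mem_ofPred_eq, and_comm]
  have hf : ∀ A, GPFree A → H52.GP.Free A := by
    intro A h a ha b hb c hc e
    by_contra hac
    have a0 : 0 < a := Nat.pos_of_ne_zero fun h0 => h.1 (h0 ▸ ha)
    have c0 : 0 < c := Nat.pos_of_ne_zero fun h0 => h.1 (h0 ▸ hc)
    refine h.2 a ha b hb c hc ?_ ?_ hac e
    · rintro rfl
      exact hac (Nat.eq_of_mul_eq_mul_left a0 (by rw [e, sq]))
    · rintro rfl
      exact hac (Nat.eq_of_mul_eq_mul_right c0 (by rw [e, sq]))
  have hb : BddAbove {d | ∃ A, GPFree A ∧ d = limsup (ratio A) atTop} := by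
    refine ⟨1, ?_⟩
    rintro d ⟨A, -, rfl⟩
    rw [hr]
    exact limsup_le_of_le (isCoboundedUnder_le_of_le atTop (x := 0) fun N => by positivity)
      (Eventually.of_forall (H52.GP.cnt_le A))
  have h : alpha ≤ alphaBar - 1 / 8000000 := by
    refine csSup_le ⟨0, ∅, ⟨by simp, by simp⟩, ?_⟩ ?_
    · rw [show ratio ∅ = fun _ => 0 by funext N; simp [ratio]]
      exact tendsto_const_nhds
    · rintro d ⟨A, hA, hd⟩
      rw [hr] at hd
      obtain ⟨C, c1, c2, c3⟩ := H52.GP.gain A (hf A hA) d hd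
      have := le_csSup hb ⟨C, ⟨c1, fun a ha b hb c hc _ _ h e => h (c2 a ha b hb c hc e)⟩, rfl⟩
      rw [hr] at this
      unfold alphaBar
      linarith
  linarith

end Pool.Agent.Results.MP_9f86c8_nt.Strict
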